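import Pool.Agent.H815.QC.Stm3

/-!
Project QC (helper815, MP_c91b70_al): C3, restriction of a homomorphism.
-/

set_option autoImplicit false

namespace Pool.Agent.H94.QC

open Pool.Agent.H815.QC

theorem C3_proof : Pool.Agent.H815.QC.S_C3 := by
  intro N P _ _ γ R K hK hv
  obtain ⟨hinj, hfin⟩ := hv
  obtain ⟨ι, hι⟩ : ∃ ι : K →* R, ∀ n, (ι n : P) = γ n :=
    ⟨(γ.comp K.subtype).codRestrict R (fun n => (hK n.1).1 n.2), fun n => rfl⟩
  refine ⟨ι, hι, ?_, ?_, ?_⟩
  · intro a b hab
    apply Subtype.ext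
    apply hinj
    rw [← hι, ← hι, hab]
  · have h1 : ι.range = γ.range.subgroupOf R := by
      ext r
      rw [Subgroup.mem_subgroupOf]
      constructor
      · rintro ⟨k, rfl⟩
        exact ⟨k.1, (hι k).symm⟩
      · rintro ⟨n, hn⟩
        have hnK : n ∈ K := (hK n).2 (by rw [hn]; exact r.2)
        refine ⟨⟨n, hnK⟩, ?_⟩
        apply Subtype.ext
        rw [hι]
        exact hn
    rw [h1]
    have h2 : (γ.range.subgroupOf R).FiniteIndex := inferInstance
    exact h2.index_ne_zero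
  · intro J T j y k
    have h1 : k ∈ pf ι (fun j => (T j).subgroupOf R) j y ↔
        ι k ∈ ((T j).subgroupOf R).map (MulAut.conj y).toMonoidHom := Iff.rfl
    have h2 : ι k ∈ ((T j).subgroupOf R).map (MulAut.conj y).toMonoidHom ↔
        (MulAut.conj y).symm (ι k) ∈ (T j).subgroupOf R := Subgroup.mem_map_equiv
    rw [h1, h2, MulAut.conj_symm_apply, Subgroup.mem_subgroupOf, ← hι k]
    exact Iff.rfl

end Pool.Agent.H94.QC
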